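import Mathlib

/-!
# Point-countable bases in ccc spaces with bases of point-finite rank
-/

set_option autoImplicit false

open TopologicalSpace Set

namespace Pool.Agent.H70.Rank

variable {X : Type*}

/-- A family all of whose finite antichains have at most `n` elements. -/
def WidthLE (S : Set (Set X)) (n : ℕ) : Prop :=
  ∀ 𝒜 : Finset (Set X), (∀ A ∈ 𝒜, A ∈ S) → IsAntichain (· ⊆ ·) (𝒜 : Set (Set X)) → 𝒜.card ≤ n

/-- An uncountable family of finite width contains an uncountable chain. -/
lemma exists_uncountable_chain (n : ℕ) : ∀ (S : Set (Set X)), ¬ S.Countable → WidthLE S n →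
    ∃ C ⊆ S, IsChain (· ⊆ ·) C ∧ ¬ C.Countable := by
  classical
  induction n with
  | zero =>
    intro S hS hw
    exfalso
    apply hS
    have : S = ∅ := by
      by_contra hne
      obtain ⟨V, hV⟩ := nonempty_iff_ne_empty.mpr hne
      have := hw {V} (by simpa using hV) (by simp)
      simp at this
    rw [this]
    exact countable_empty
  | succ n ih =>
    intro S hS hw
    by_cases h : ∃ V ∈ S, ¬ {W ∈ S | ¬ W ⊆ V ∧ ¬ V ⊆ W}.Countable
    · obtain ⟨V, hV, hVc⟩ := h
      obtain ⟨C, hCS, hC, hCc⟩ := ih _ hVc (by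
        intro 𝒜 h𝒜 hanti
        have hVn : V ∉ 𝒜 := fun hmem => (h𝒜 V hmem).2.1 Subset.rfl
        have h1 := hw (insert V 𝒜) (by
          intro A hA
          rcases Finset.mem_insert.mp hA with rfl | hA
          · exact hV
          · exact (h𝒜 A hA).1) (by
          rw [Finset.coe_insert]
          refine hanti.insert ?_ ?_
          · intro A hA _ hAV
            exact (h𝒜 A hA).2.1 hAV
          · intro A hA _ hVA
            exact (h𝒜 A hA).2.2 hVA)
        rw [Finset.card_insert_of_notMem hVn] at h1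
        omega)
      exact ⟨C, hCS.trans (sep_subset _ _), hC, hCc⟩
    · push Not at h
      -- take a maximal chain
      obtain ⟨C, hC⟩ := zorn_subset {C : Set (Set X) | C ⊆ S ∧ IsChain (· ⊆ ·) C} (by
        intro c hc hchain
        refine ⟨⋃₀ c, ⟨sUnion_subset fun C hC => (hc hC).1, ?_⟩, fun s hs => subset_sUnion_of_mem hs⟩
        intro a ⟨s, hs, has⟩ b ⟨t, ht, hbt⟩ hab
        rcases hchain.total hs ht with hst | hts
        · exact (hc ht).2 (hst has) hbt hab
        · exact (hc hs).2 has (hts hbt) hab)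
      refine ⟨C, hC.prop.1, hC.prop.2, ?_⟩
      intro hCc
      have h1 : (C ∪ ⋃ V ∈ C, {W ∈ S | ¬ W ⊆ V ∧ ¬ V ⊆ W}).Countable :=
        hCc.union (hCc.biUnion fun V hV => h V (hC.prop.1 hV))
      have h2 : ∃ W ∈ S, W ∉ (C ∪ ⋃ V ∈ C, {W ∈ S | ¬ W ⊆ V ∧ ¬ V ⊆ W}) := by
        by_contra hcon
        push Not at hcon
        exact hS (h1.mono hcon)
      obtain ⟨W, hWS, hW⟩ := h2
      rw [mem_union, not_or] at hW
      have h3 : IsChain (· ⊆ ·) (insert W C) := by
        refine hC.prop.2.insert ?_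
        intro V hV _
        by_contra hcon
        rw [not_or] at hcon
        exact hW.2 (mem_biUnion hV ⟨hWS, hcon.1, hcon.2⟩)
      have h4 : insert W C ⊆ C := hC.le_of_ge ⟨insert_subset hWS hC.prop.1, h3⟩ (subset_insert _ _)
      exact hW.1 (h4 (mem_insert _ _))

variable [TopologicalSpace X]

/-- The countable chain condition. -/
def CCC (X : Type*) [TopologicalSpace X] : Prop :=
  ∀ 𝒰 : Set (Set X), (∀ U ∈ 𝒰, IsOpen U ∧ U.Nonempty) → 𝒰.PairwiseDisjoint id → 𝒰.Countable

/-- In a ccc space an uncountable well-ordered decreasing family of open sets contains two members,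
the larger of which is contained in the closure of the smaller. -/
lemma exists_subset_closure (hccc : CCC X) {I : Type*} [LinearOrder I] [WellFoundedLT I]
    (K : Set I) (hK : ¬ K.Countable) (V : I → Set X) (hopen : ∀ i ∈ K, IsOpen (V i))
    (hdec : ∀ i ∈ K, ∀ j ∈ K, i < j → V j ⊆ V i) :
    ∃ i ∈ K, ∃ j ∈ K, i < j ∧ V i ⊆ closure (V j) := by
  classical
  by_contra hcon
  push Not at hcon
  -- elements with a successor
  set K' : Set I := {i ∈ K | ∃ j ∈ K, i < j} with hK'
  have hK'c : ¬ K'.Countable := by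
    intro hc
    apply hK
    have : (K \ K').Subsingleton := by
      intro a ha b hb
      by_contra hab
      rcases lt_or_gt_of_ne hab with h | h
      · exact ha.2 ⟨ha.1, b, hb.1, h⟩
      · exact hb.2 ⟨hb.1, a, ha.1, h⟩
    have h2 : K ⊆ K' ∪ (K \ K') := by
      intro x hx
      by_cases h : x ∈ K'
      · exact Or.inl h
      · exact Or.inr ⟨hx, h⟩
    exact (hc.union this.countable).mono h2
  have hsucc : ∀ i ∈ K', ∃ j ∈ K, i < j ∧ ∀ k ∈ K, i < k → j ≤ k := by
    rintro i ⟨hi, j, hj, hij⟩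
    have hne : {k ∈ K | i < k}.Nonempty := ⟨j, hj, hij⟩
    obtain ⟨m, hm, hmin⟩ := WellFounded.has_min (wellFounded_lt (α := I)) _ hne
    exact ⟨m, hm.1, hm.2, fun k hk hik => not_lt.mp (hmin k ⟨hk, hik⟩)⟩
  choose! s hsK hsi hsmin using hsucc
  set D : I → Set X := fun i => V i \ closure (V (s i)) with hD
  have hDne : ∀ i ∈ K', (D i).Nonempty := by
    intro i hi
    have := hcon i hi.1 (s i) (hsK i hi) (hsi i hi)
    rw [not_subset] at this
    obtain ⟨x, hx1, hx2⟩ := this
    exact ⟨x, hx1, hx2⟩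
  have hDdisj : ∀ i ∈ K', ∀ j ∈ K', i < j → Disjoint (D i) (D j) := by
    intro i hi j hj hij
    rw [Set.disjoint_left]
    rintro x ⟨_, hx⟩ ⟨hxj, _⟩
    apply hx
    apply subset_closure
    rcases eq_or_lt_of_le (hsmin i hi j hj.1 hij) with h | h
    · rw [h]; exact hxj
    · exact hdec _ (hsK i hi) j hj.1 h hxj
  have hinj : Set.InjOn D K' := by
    intro i hi j hj hij
    by_contra hne
    rcases lt_or_gt_of_ne hne with h | h
    · have h1 := hDdisj i hi j hj h
      rw [hij] at h1
      obtain ⟨x, hx⟩ := hDne j hj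
      exact Set.disjoint_left.mp h1 hx hx
    · have h1 := hDdisj j hj i hi h
      rw [hij] at h1
      obtain ⟨x, hx⟩ := hDne j hj
      exact Set.disjoint_left.mp h1 hx hx
  have hcount : (D '' K').Countable := by
    apply hccc
    · rintro _ ⟨i, hi, rfl⟩
      exact ⟨(hopen i hi.1).sdiff isClosed_closure, hDne i hi⟩
    · rintro _ ⟨i, hi, rfl⟩ _ ⟨j, hj, rfl⟩ hne
      have hij : i ≠ j := fun h => hne (by rw [h])
      rcases lt_or_gt_of_ne hij with h | h
      · exact hDdisj i hi j hj h
      · exact (hDdisj j hj i hi h).symm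
  exact hK'c (Set.countable_of_injective_of_countable_image hinj hcount)

end Pool.Agent.H70.Rank
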