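import Pool.Agent.H70.Rank.Basic

/-!
# Point-countable bases in ccc spaces with bases of point-finite rank: the main argument
-/

set_option autoImplicit false

open TopologicalSpace Set

namespace Pool.Agent.H70.Rank

/-- A type synonym carrying a well-order. -/
def WO (α : Type*) : Type _ := α

noncomputable instance (α : Type*) : LinearOrder (WO α) :=
  @linearOrderOfSTO α WellOrderingRel _ (Classical.decRel _)

instance (α : Type*) : WellFoundedLT (WO α) :=
  ⟨(WellOrderingRel.isWellOrder (α := α)).wf⟩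

variable {X : Type*}

lemma WidthLE.mono {S T : Set (Set X)} {n : ℕ} (h : WidthLE S n) (hTS : T ⊆ S) : WidthLE T n :=
  fun 𝒜 h𝒜 hanti => h 𝒜 (fun A hA => hTS (h𝒜 A hA)) hanti

variable [TopologicalSpace X]

/-- In a ccc space, a family of open sets of finite width has a countable subfamily which is
coinitial up to closures. -/
lemma exists_countable_coinitial (hccc : CCC X) (𝓥 : Set (Set X)) (hopen : ∀ V ∈ 𝓥, IsOpen V)
    (n : ℕ) (hw : WidthLE 𝓥 n) :
    ∃ 𝒞 ⊆ 𝓥, 𝒞.Countable ∧ ∀ V ∈ 𝓥, ∃ C ∈ 𝒞, C ⊆ closure V := by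
  classical
  let toWO : Set X → WO (Set X) := fun V => V
  set S : Set (Set X) := {V ∈ 𝓥 | ∀ V' ∈ 𝓥, toWO V' < toWO V → ¬ V' ⊆ closure V} with hS
  refine ⟨S, sep_subset _ _, ?_, ?_⟩
  · by_contra hSc
    obtain ⟨𝒦, h𝒦S, hchain, h𝒦c⟩ := exists_uncountable_chain n S hSc (hw.mono (sep_subset _ _))
    have key : ∀ i ∈ 𝒦, ∀ j ∈ 𝒦, toWO i < toWO j → ¬ i ⊆ closure j := fun i hi j hj hij =>
      (h𝒦S hj).2 i (h𝒦S hi).1 hij
    obtain ⟨i, hi, j, hj, hij, hsub⟩ := exists_subset_closure hccc (I := WO (Set X)) 𝒦 h𝒦c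
      (fun V => V) (fun i hi => hopen i (h𝒦S hi).1) (by
        intro i hi j hj hij
        rcases hchain.total hi hj with h | h
        · exact absurd (h.trans subset_closure) (key i hi j hj hij)
        · exact h)
    exact key i hi j hj hij hsub
  · intro V hV
    have hne : {C : WO (Set X) | (show Set X from C) ∈ 𝓥 ∧ (show Set X from C) ⊆ closure V}.Nonempty :=
      ⟨V, hV, subset_closure⟩
    obtain ⟨C, hC, hmin⟩ := WellFounded.has_min (wellFounded_lt (α := WO (Set X))) _ hne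
    refine ⟨C, ⟨hC.1, ?_⟩, hC.2⟩
    intro V' hV' hlt hsub
    refine hmin V' ⟨hV', ?_⟩ hlt
    exact hsub.trans (closure_minimal hC.2 isClosed_closure)

/-- `A` is small for the neighbourhood assignment `N`: the points of `A` can be served by a
point-countable family of open sets. -/
def Small (N : X → Set X) (A : Set X) : Prop :=
  ∃ 𝒰 : Set (Set X), (∀ U ∈ 𝒰, IsOpen U) ∧ (∀ y, {U ∈ 𝒰 | y ∈ U}.Countable) ∧
    ∀ x ∈ A, ∃ U ∈ 𝒰, x ∈ U ∧ U ⊆ N x

lemma Small.mono {N : X → Set X} {A B : Set X} (h : Small N B) (hAB : A ⊆ B) : Small N A := by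
  obtain ⟨𝒰, h1, h2, h3⟩ := h
  exact ⟨𝒰, h1, h2, fun x hx => h3 x (hAB hx)⟩

lemma small_iUnion {ι : Type*} [Countable ι] {N : X → Set X} {A : ι → Set X}
    (h : ∀ i, Small N (A i)) : Small N (⋃ i, A i) := by
  choose 𝒰 h1 h2 h3 using h
  refine ⟨⋃ i, 𝒰 i, ?_, ?_, ?_⟩
  · intro U hU
    obtain ⟨i, hi⟩ := mem_iUnion.mp hU
    exact h1 i U hi
  · intro y
    refine (countable_iUnion (fun i => h2 i y)).mono ?_
    rintro U ⟨hU, hy⟩
    obtain ⟨i, hi⟩ := mem_iUnion.mp hU
    exact mem_iUnion.mpr ⟨i, hi, hy⟩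
  · intro x hx
    obtain ⟨i, hi⟩ := mem_iUnion.mp hx
    obtain ⟨U, hU, h⟩ := h3 i x hi
    exact ⟨U, mem_iUnion.mpr ⟨i, hU⟩, h⟩

lemma small_biUnion {ι : Type*} {C : Set ι} (hC : C.Countable) {N : X → Set X} {A : ι → Set X}
    (h : ∀ i ∈ C, Small N (A i)) : Small N (⋃ i ∈ C, A i) := by
  have := hC.to_subtype
  rw [biUnion_eq_iUnion]
  exact small_iUnion (fun i => h i i.2)

lemma small_union {N : X → Set X} {A B : Set X} (hA : Small N A) (hB : Small N B) :
    Small N (A ∪ B) := by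
  rw [union_eq_iUnion]
  exact small_iUnion (fun b => by cases b <;> simpa)

lemma small_of_open {N : X → Set X} {A U : Set X} (hU : IsOpen U) (hAU : A ⊆ U)
    (h : ∀ x ∈ A, U ⊆ N x) : Small N A :=
  ⟨{U}, by simpa using hU, fun y => (countable_singleton U).mono (sep_subset _ _),
    fun x hx => ⟨U, rfl, hAU hx, h x hx⟩⟩

lemma small_singleton {N : X → Set X} {x : X} (hN : IsOpen (N x)) (hx : x ∈ N x) :
    Small N {x} :=
  small_of_open hN (by simpa using hx) (by rintro y rfl; exact Subset.rfl)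

lemma nonempty_of_not_small {N : X → Set X} {A : Set X} (h : ¬ Small N A) : A.Nonempty := by
  by_contra hemp
  rw [not_nonempty_iff_eq_empty] at hemp
  rw [hemp] at h
  exact h ⟨∅, by simp, by simp, by simp⟩

/-- Lemma 1: a nonsmall set has a nonsmall subset all of whose points can be assigned base sets
containing one fixed point. -/
lemma exists_common_point (hccc : CCC X) (B : Set (Set X)) (hB : IsTopologicalBasis B)
    (hfin : ∀ x, ∃ n, WidthLE {V ∈ B | x ∈ V} n) [T3Space X]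
    (N : X → Set X) (P A : Set X) (hAP : A ⊆ P) (hA : ¬ Small N A)
    (N' : X → Set X) (hN'o : ∀ x ∈ A, IsOpen (N' x)) (hN'm : ∀ x ∈ A, x ∈ N' x) :
    ∃ p ∈ P, ∃ V : X → Set X, ∃ A' ⊆ A, ¬ Small N A' ∧
      ∀ x ∈ A', V x ∈ B ∧ x ∈ V x ∧ closure (V x) ⊆ N' x ∧ p ∈ V x := by
  classical
  have hXne : Nonempty X := ⟨(nonempty_of_not_small hA).some⟩
  have hWne : Nonempty (WO X) := hXne
  -- the least point
  let φ : X → Set (WO X) := fun x =>
    {q | (show X from q) ∈ P ∧ ∃ V ∈ B, x ∈ V ∧ closure V ⊆ N' x ∧ (show X from q) ∈ V}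
  have hφne : ∀ x ∈ A, (φ x).Nonempty := by
    intro x hx
    obtain ⟨V, hVB, hxV, hV⟩ := hB.exists_closure_subset ((hN'o x hx).mem_nhds (hN'm x hx))
    exact ⟨x, hAP hx, V, hVB, hxV, hV, hxV⟩
  have hmin : ∀ x ∈ A, ∃ q : WO X, q ∈ φ x ∧ ∀ r ∈ φ x, ¬ r < q := fun x hx =>
    WellFounded.has_min (wellFounded_lt (α := WO X)) _ (hφne x hx)
  choose! q hq hqmin using hmin
  have hVex : ∀ x ∈ A, ∃ V ∈ B, x ∈ V ∧ closure V ⊆ N' x ∧ (show X from q x) ∈ V := fun x hx =>
    (hq x hx).2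
  choose! V hVB hxV hVN hqV using hVex
  by_contra hcon
  push Not at hcon
  -- every fibre is small
  have hfib : ∀ r : WO X, Small N {x ∈ A | q x = r} := by
    intro r
    by_contra hns
    have hne : {x ∈ A | q x = r}.Nonempty := nonempty_of_not_small hns
    obtain ⟨x0, hx0, hqx0⟩ := hne
    have hrP : (show X from r) ∈ P := by
      rw [← hqx0]; exact (hq x0 hx0).1
    obtain ⟨x, hx, hx2⟩ := hcon r hrP V {x ∈ A | q x = r} (sep_subset _ _) hns
    refine hx2 (hVB x hx.1) (hxV x hx.1) (hVN x hx.1) ?_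
    have := hqV x hx.1
    rw [hx.2] at this
    exact this
  choose 𝒰 hU1 hU2 hU3 using hfib
  let G : WO X → Set X := fun r => ⋃ x ∈ {x ∈ A | q x = r}, V x
  have hGo : ∀ r, IsOpen (G r) := by
    intro r
    refine isOpen_biUnion fun x hx => hB.isOpen (hVB x hx.1)
  -- point countability of the `G r`
  have hGc : ∀ y : X, {r | y ∈ G r}.Countable := by
    intro y
    by_contra hunc
    have hx' : ∀ r : WO X, y ∈ G r → ∃ x ∈ A, q x = r ∧ y ∈ V x := by
      intro r hr
      obtain ⟨x, hx, hy⟩ := mem_iUnion₂.mp hr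
      exact ⟨x, hx.1, hx.2, hy⟩
    choose! xx hxxA hxxq hxxy using hx'
    set F : WO X → Set X := fun r => V (xx r) with hF
    have hFr : ∀ r, y ∈ G r → (show X from r) ∈ F r := by
      intro r hr
      have := hqV _ (hxxA r hr)
      rw [hxxq r hr] at this
      exact this
    have hrP : ∀ r, y ∈ G r → (show X from r) ∈ P := by
      intro r hr
      have := (hq _ (hxxA r hr)).1
      rw [hxxq r hr] at this
      exact this
    have hFlt : ∀ r, y ∈ G r → ∀ s, y ∈ G s → r < s → (show X from r) ∉ F s := by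
      intro r hr s hs hrs hmem
      refine hqmin (xx s) (hxxA s hs) r ?_ ?_
      · exact ⟨hrP r hr, V (xx s), hVB _ (hxxA s hs), hxV _ (hxxA s hs), hVN _ (hxxA s hs), hmem⟩
      · rw [hxxq s hs]; exact hrs
    have hFinj : InjOn F {r | y ∈ G r} := by
      intro r hr s hs hrs
      by_contra hne
      rcases lt_or_gt_of_ne hne with h | h
      · apply hFlt r hr s hs h
        rw [← hrs]; exact hFr r hr
      · apply hFlt s hs r hr h
        rw [hrs]; exact hFr s hs
    have hFunc : ¬ (F '' {r | y ∈ G r}).Countable := fun h =>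
      hunc (Set.countable_of_injective_of_countable_image hFinj h)
    obtain ⟨n, hn⟩ := hfin y
    obtain ⟨𝒦, h𝒦, hchain, h𝒦c⟩ := exists_uncountable_chain n (F '' {r | y ∈ G r}) hFunc
      (hn.mono (by
        rintro _ ⟨r, hr, rfl⟩
        exact ⟨hVB _ (hxxA r hr), hxxy r hr⟩))
    set K : Set (WO X) := {r | y ∈ G r ∧ F r ∈ 𝒦} with hK
    have hKc : ¬ K.Countable := by
      intro hc
      apply h𝒦c
      refine (hc.image F).mono ?_
      intro W hW
      obtain ⟨r, hr, rfl⟩ := h𝒦 hW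
      exact ⟨r, ⟨hr, hW⟩, rfl⟩
    have hdec : ∀ r ∈ K, ∀ s ∈ K, r < s → F s ⊆ F r := by
      intro r hr s hs hrs
      rcases hchain.total hr.2 hs.2 with h | h
      · exact absurd (h (hFr r hr.1)) (hFlt r hr.1 s hs.1 hrs)
      · exact h
    obtain ⟨r, hr, s, hs, hrs, hsub⟩ := exists_subset_closure hccc K hKc F
      (fun r hr => hB.isOpen (hVB _ (hxxA r hr.1))) hdec
    refine hqmin (xx s) (hxxA s hs.1) r ?_ ?_
    · refine ⟨hrP r hr.1, F r, hVB _ (hxxA r hr.1), hdec r hr s hs hrs (hxV _ (hxxA s hs.1)), ?_,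
        hFr r hr.1⟩
      exact (closure_minimal hsub isClosed_closure).trans (hVN _ (hxxA s hs.1))
    · rw [hxxq s hs.1]; exact hrs
  -- now `A` is small
  apply hA
  refine ⟨{W | ∃ r, ∃ U ∈ 𝒰 r, W = U ∩ G r}, ?_, ?_, ?_⟩
  · rintro _ ⟨r, U, hU, rfl⟩
    exact (hU1 r U hU).inter (hGo r)
  · intro y
    have : ({W | ∃ r, ∃ U ∈ 𝒰 r, W = U ∩ G r} ∩ {W | y ∈ W}) ⊆
        ⋃ r ∈ {r | y ∈ G r}, (fun U => U ∩ G r) '' {U ∈ 𝒰 r | y ∈ U} := by
      rintro _ ⟨⟨r, U, hU, rfl⟩, hy⟩
      exact mem_iUnion₂.mpr ⟨r, hy.2, U, ⟨hU, hy.1⟩, rfl⟩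
    refine Set.Countable.mono this ((hGc y).biUnion fun r _ => (hU2 r y).image _)
  · intro x hx
    obtain ⟨U, hU, hxU, hUN⟩ := hU3 (q x) x ⟨hx, rfl⟩
    refine ⟨U ∩ G (q x), ⟨q x, U, hU, rfl⟩, ⟨hxU, ?_⟩, inter_subset_left.trans hUN⟩
    exact mem_iUnion₂.mpr ⟨x, ⟨hx, rfl⟩, hxV x hx⟩

/-- Lemma 2. -/
lemma exists_not_subset_closure (hccc : CCC X) (B : Set (Set X)) (hB : IsTopologicalBasis B)
    (N : X → Set X) (A : Set X) (hA : ¬ Small N A) (p : X) (n : ℕ)
    (hp : WidthLE {V ∈ B | p ∈ V} n) (V W : X → Set X) (hVB : ∀ x ∈ A, V x ∈ B)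
    (hpV : ∀ x ∈ A, p ∈ V x) (hVN : ∀ x ∈ A, closure (V x) ⊆ N x)
    (hWo : ∀ x ∈ A, IsOpen (W x)) (hxW : ∀ x ∈ A, x ∈ W x) :
    ∃ x0 ∈ A, ¬ Small N {x ∈ A | ¬ W x ⊆ closure (V x0)} := by
  classical
  have hXne : Nonempty X := ⟨p⟩
  by_contra hcon
  push Not at hcon
  obtain ⟨𝒞, h𝒞, h𝒞c, h𝒞V⟩ := exists_countable_coinitial hccc (V '' A) (by
      rintro _ ⟨x, hx, rfl⟩
      exact hB.isOpen (hVB x hx)) n (hp.mono (by
      rintro _ ⟨x, hx, rfl⟩
      exact ⟨hVB x hx, hpV x hx⟩))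
  have hc : ∀ C ∈ 𝒞, ∃ c ∈ A, V c = C := fun C hC => h𝒞 hC
  choose! c hcA hcV using hc
  have h1 : Small N (⋃ C ∈ 𝒞, {x ∈ A | ¬ W x ⊆ closure (V (c C))}) :=
    small_biUnion h𝒞c fun C hC => hcon (c C) (hcA C hC)
  set A' : Set X := {x ∈ A | ∀ C ∈ 𝒞, W x ⊆ closure C} with hA'
  have h2 : Small N A' := by
    refine small_of_open (U := ⋃ x ∈ A', W x) (isOpen_biUnion fun x hx => hWo x hx.1)
      (fun x hx => mem_iUnion₂.mpr ⟨x, hx, hxW x hx.1⟩) ?_
    intro x hx
    refine iUnion₂_subset fun x' hx' => ?_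
    obtain ⟨C, hC, hCV⟩ := h𝒞V (V x) ⟨x, hx.1, rfl⟩
    exact ((hx'.2 C hC).trans (closure_minimal hCV isClosed_closure)).trans (hVN x hx.1)
  apply hA
  refine (small_union h2 h1).mono ?_
  intro x hx
  by_cases h : ∀ C ∈ 𝒞, W x ⊆ closure C
  · exact Or.inl ⟨hx, h⟩
  · push Not at h
    obtain ⟨C, hC, hWC⟩ := h
    refine Or.inr (mem_iUnion₂.mpr ⟨C, hC, hx, ?_⟩)
    rw [hcV C hC]
    exact hWC

/-- The states constructed by iterating Lemma 1. -/
lemma exists_states (hccc : CCC X) (B : Set (Set X)) (hB : IsTopologicalBasis B)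
    (hfin : ∀ x, ∃ n, WidthLE {V ∈ B | x ∈ V} n) [T3Space X]
    (N : X → Set X) (hNo : ∀ x, IsOpen (N x)) (hNm : ∀ x, x ∈ N x) (P : Set X)
    (hP : ¬ Small N P) (m : ℕ) :
    ∃ (A : Set X) (V : ℕ → X → Set X) (p : ℕ → X), ¬ Small N A ∧ A ⊆ P ∧ (∀ j ≤ m, p j ∈ P) ∧
      (∀ j ≤ m, ∀ x ∈ A, V j x ∈ B ∧ x ∈ V j x ∧ p j ∈ V j x ∧ closure (V j x) ⊆ N x) ∧
      (∀ i j, i < j → j ≤ m → ∀ x ∈ A, V j x ⊆ V i x \ {p i}) := by
  classical
  induction m with
  | zero =>
    obtain ⟨p, hp, V, A', hA', hns, h⟩ := exists_common_point hccc B hB hfin N P P Subset.rfl hP N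
      (fun x _ => hNo x) (fun x _ => hNm x)
    refine ⟨A', fun _ => V, fun _ => p, hns, hA', fun _ _ => hp, ?_, ?_⟩
    · intro j _ x hx
      exact ⟨(h x hx).1, (h x hx).2.1, (h x hx).2.2.2, (h x hx).2.2.1⟩
    · intro i j hij hj
      omega
  | succ m ih =>
    obtain ⟨A, V, p, hns, hAP, hpP, h1, h2⟩ := ih
    have hns2 : ¬ Small N (A \ {p m}) := by
      intro h
      apply hns
      refine (small_union h (small_singleton (hNo (p m)) (hNm (p m)))).mono ?_
      intro x hx
      by_cases hxp : x = p m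
      · exact Or.inr hxp
      · exact Or.inl ⟨hx, hxp⟩
    obtain ⟨p', hp', V', A', hA', hns', h⟩ := exists_common_point hccc B hB hfin N P (A \ {p m})
      (sdiff_subset.trans hAP) hns2 (fun x => V m x \ {p m})
      (fun x hx => (hB.isOpen (h1 m le_rfl x hx.1).1).sdiff isClosed_singleton)
      (fun x hx => ⟨(h1 m le_rfl x hx.1).2.1, hx.2⟩)
    have hA'A : A' ⊆ A := hA'.trans sdiff_subset
    refine ⟨A', Function.update V (m + 1) V', Function.update p (m + 1) p', hns',
      hA'A.trans hAP, ?_, ?_, ?_⟩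
    · intro j hj
      rcases Nat.lt_or_ge j (m + 1) with hlt | hge
      · rw [Function.update_of_ne (by omega)]
        exact hpP j (by omega)
      · have : j = m + 1 := by omega
        subst this
        rw [Function.update_self]
        exact hp'
    · intro j hj x hx
      rcases Nat.lt_or_ge j (m + 1) with hlt | hge
      · rw [Function.update_of_ne (by omega), Function.update_of_ne (by omega)]
        exact h1 j (by omega) x (hA'A hx)
      · have : j = m + 1 := by omega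
        subst this
        rw [Function.update_self, Function.update_self]
        refine ⟨(h x hx).1, (h x hx).2.1, (h x hx).2.2.2, ?_⟩
        exact (((h x hx).2.2.1.trans sdiff_subset).trans subset_closure).trans
          (h1 m le_rfl x (hA'A hx)).2.2.2
    · intro i j hij hj x hx
      rcases Nat.lt_or_ge j (m + 1) with hlt | hge
      · rw [Function.update_of_ne (by omega), Function.update_of_ne (by omega),
          Function.update_of_ne (by omega)]
        exact h2 i j hij (by omega) x (hA'A hx)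
      · have : j = m + 1 := by omega
        subst this
        rw [Function.update_self, Function.update_of_ne (by omega),
          Function.update_of_ne (by omega)]
        have h3 : V' x ⊆ V m x \ {p m} := subset_closure.trans (h x hx).2.2.1
        rcases Nat.lt_or_ge i m with him | him
        · exact (h3.trans sdiff_subset).trans (h2 i m him le_rfl x (hA'A hx))
        · have : i = m := by omega
          subst this
          exact h3

/-- The set of points of rank at most `n` is small. -/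
lemma small_of_width (hccc : CCC X) (B : Set (Set X)) (hB : IsTopologicalBasis B)
    (hfin : ∀ x, ∃ n, WidthLE {V ∈ B | x ∈ V} n) [T3Space X]
    (N : X → Set X) (hNo : ∀ x, IsOpen (N x)) (hNm : ∀ x, x ∈ N x) (n : ℕ) :
    Small N {x | WidthLE {V ∈ B | x ∈ V} n} := by
  classical
  by_contra hP
  obtain ⟨A, V, p, hns, hAP, hpP, h1, h2⟩ := exists_states hccc B hB hfin N hNo hNm _ hP n
  have hpn : WidthLE {V ∈ B | p n ∈ V} n := hpP n le_rfl
  -- `V n x ⊆ V j x`
  have h3 : ∀ j ≤ n, ∀ x ∈ A, V n x ⊆ V j x := by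
    intro j hj x hx
    rcases eq_or_lt_of_le hj with h | h
    · rw [h]
    · exact (h2 j n h le_rfl x hx).trans sdiff_subset
  have h4 : ∀ j ≤ n, ∀ x ∈ A, p n ∈ V j x := fun j hj x hx => h3 j hj x hx (h1 n le_rfl x hx).2.2.1
  -- choose the points `z`
  have h5 : ∀ k ≤ n + 1, ∃ (z : ℕ → X) (D : Set X), D ⊆ A ∧ ¬ Small N D ∧ (∀ j < k, z j ∈ A) ∧
      (∀ i j, i < j → j < k → ¬ V n (z j) ⊆ closure (V i (z i))) ∧
      ∀ x ∈ D, ∀ i < k, ¬ V n x ⊆ closure (V i (z i)) := by
    intro k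
    induction k with
    | zero =>
      intro _
      exact ⟨p, A, Subset.rfl, hns, fun j hj => absurd hj (by omega),
        fun i j _ hj => absurd hj (by omega), fun x _ i hi => absurd hi (by omega)⟩
    | succ k ih =>
      intro hk
      obtain ⟨z, D, hDA, hD, hzA, hz, hzD⟩ := ih (by omega)
      obtain ⟨x0, hx0, hx0s⟩ := exists_not_subset_closure hccc B hB N D hD (p n) n hpn (V k) (V n)
        (fun x hx => (h1 k (by omega) x (hDA hx)).1)
        (fun x hx => h4 k (by omega) x (hDA hx))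
        (fun x hx => (h1 k (by omega) x (hDA hx)).2.2.2)
        (fun x hx => hB.isOpen (h1 n le_rfl x (hDA hx)).1)
        (fun x hx => (h1 n le_rfl x (hDA hx)).2.1)
      refine ⟨Function.update z k x0, {x ∈ D | ¬ V n x ⊆ closure (V k x0)},
        (sep_subset _ _).trans hDA, hx0s, ?_, ?_, ?_⟩
      · intro j hj
        rcases Nat.lt_or_ge j k with h | h
        · rw [Function.update_of_ne (by omega)]
          exact hzA j h
        · have : j = k := by omega
          subst this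
          rw [Function.update_self]
          exact hDA hx0
      · intro i j hij hj
        rcases Nat.lt_or_ge j k with h | h
        · rw [Function.update_of_ne (by omega), Function.update_of_ne (by omega)]
          exact hz i j hij h
        · have : j = k := by omega
          subst this
          rw [Function.update_self, Function.update_of_ne (by omega)]
          exact hzD x0 hx0 i hij
      · intro x hx i hi
        rcases Nat.lt_or_ge i k with h | h
        · rw [Function.update_of_ne (by omega)]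
          exact hzD x hx.1 i h
        · have : i = k := by omega
          subst this
          rw [Function.update_self]
          exact hx.2
  obtain ⟨z, D, hDA, hD, hzA, hz, hzD⟩ := h5 (n + 1) le_rfl
  -- the antichain
  have h6 : ∀ i j, i < j → j < n + 1 → ¬ V i (z i) ⊆ V j (z j) := by
    intro i j hij hj hsub
    have h7 : p i ∈ V i (z i) := (h1 i (by omega) (z i) (hzA i (by omega))).2.2.1
    exact (h2 i j hij (by omega) (z j) (hzA j hj) (hsub h7)).2 rfl
  have h7 : ∀ i j, i < j → j < n + 1 → ¬ V j (z j) ⊆ V i (z i) := by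
    intro i j hij hj hsub
    apply hz i j hij hj
    exact ((h3 j (by omega) (z j) (hzA j hj)).trans hsub).trans subset_closure
  have hinj : Set.InjOn (fun j => V j (z j)) (Finset.range (n + 1) : Set ℕ) := by
    intro i hi j hj hij
    simp only [Finset.coe_range, mem_Iio] at hi hj
    simp only at hij
    by_contra hne
    rcases Nat.lt_or_gt_of_ne hne with h | h
    · exact h6 i j h hj (by rw [hij])
    · exact h6 j i h hi (by rw [hij])
  have hcard : ((Finset.range (n + 1)).image (fun j => V j (z j))).card = n + 1 := by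
    rw [Finset.card_image_of_injOn hinj, Finset.card_range]
  have hle := hpn ((Finset.range (n + 1)).image (fun j => V j (z j))) (by
      intro W hW
      obtain ⟨j, hj, rfl⟩ := Finset.mem_image.mp hW
      rw [Finset.mem_range] at hj
      exact ⟨(h1 j (by omega) (z j) (hzA j hj)).1, h4 j (by omega) (z j) (hzA j hj)⟩) (by
      intro W hW W' hW' hne hsub
      simp only [Finset.coe_image, Finset.coe_range, mem_image, mem_Iio] at hW hW'
      obtain ⟨i, hi, rfl⟩ := hW
      obtain ⟨j, hj, rfl⟩ := hW'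
      have hij : i ≠ j := fun h => hne (by rw [h])
      rcases Nat.lt_or_gt_of_ne hij with h | h
      · exact h6 i j h hj hsub
      · exact h7 j i h hi hsub)
  rw [hcard] at hle
  omega

/-- The main theorem. -/
theorem exists_pointCountable_base [T3Space X] (hccc : CCC X) (B : Set (Set X))
    (hB : IsTopologicalBasis B) (hfin : ∀ x, ∃ n, WidthLE {V ∈ B | x ∈ V} n) :
    ∃ ℬ : Set (Set X), IsTopologicalBasis ℬ ∧ ∀ x : X, {B ∈ ℬ | x ∈ B}.Countable := by
  classical
  -- countable local bases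
  have hloc : ∀ x : X, ∃ N : ℕ → Set X, (∀ k, IsOpen (N k)) ∧ (∀ k, x ∈ N k) ∧
      ∀ O : Set X, IsOpen O → x ∈ O → ∃ k, N k ⊆ O := by
    intro x
    obtain ⟨n, hn⟩ := hfin x
    obtain ⟨𝒞, h𝒞, h𝒞c, h𝒞V⟩ := exists_countable_coinitial hccc {V ∈ B | x ∈ V}
      (fun V hV => hB.isOpen hV.1) n hn
    have hne : 𝒞.Nonempty := by
      obtain ⟨V, hVB, hxV, _⟩ := hB.exists_subset_of_mem_open (mem_univ x) isOpen_univ
      obtain ⟨C, hC, _⟩ := h𝒞V V ⟨hVB, hxV⟩
      exact ⟨C, hC⟩
    obtain ⟨N, hN⟩ := h𝒞c.exists_eq_range hne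
    have hNmem : ∀ k, N k ∈ 𝒞 := fun k => by rw [hN]; exact mem_range_self k
    refine ⟨N, fun k => hB.isOpen (h𝒞 (hNmem k)).1, fun k => (h𝒞 (hNmem k)).2, ?_⟩
    intro O hO hxO
    obtain ⟨V, hVB, hxV, hV⟩ := hB.exists_closure_subset (hO.mem_nhds hxO)
    obtain ⟨C, hC, hCV⟩ := h𝒞V V ⟨hVB, hxV⟩
    rw [hN] at hC
    obtain ⟨k, rfl⟩ := hC
    exact ⟨k, hCV.trans hV⟩
  choose N hNo hNm hNO using hloc
  have hsmall : ∀ k, Small (fun x => N x k) (univ : Set X) := by
    intro k
    have : (univ : Set X) = ⋃ n : ℕ, {x | WidthLE {V ∈ B | x ∈ V} n} := by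
      symm
      rw [eq_univ_iff_forall]
      intro x
      obtain ⟨n, hn⟩ := hfin x
      exact mem_iUnion.mpr ⟨n, hn⟩
    rw [this]
    exact small_iUnion fun n =>
      small_of_width hccc B hB hfin (fun x => N x k) (fun x => hNo x k) (fun x => hNm x k) n
  choose 𝒰 h1 h2 h3 using hsmall
  refine ⟨⋃ k, 𝒰 k, ?_, ?_⟩
  · refine isTopologicalBasis_of_isOpen_of_nhds ?_ ?_
    · intro U hU
      obtain ⟨k, hk⟩ := mem_iUnion.mp hU
      exact h1 k U hk
    · intro x O hxO hO
      obtain ⟨k, hk⟩ := hNO x O hO hxO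
      obtain ⟨U, hU, hxU, hUN⟩ := h3 k x (mem_univ x)
      exact ⟨U, mem_iUnion.mpr ⟨k, hU⟩, hxU, hUN.trans hk⟩
  · intro x
    refine (countable_iUnion (fun k => h2 k x)).mono ?_
    rintro U ⟨hU, hx⟩
    obtain ⟨k, hk⟩ := mem_iUnion.mp hU
    exact mem_iUnion.mpr ⟨k, hk, hx⟩

end Pool.Agent.H70.Rank
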